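import Pool.Agent.W128.VA.Stm

/-!
# VA-GEN: the Fock space is generated by the vacuum
-/

set_option autoImplicit false

namespace Pool.Agent.W410.VA.GEN

open Pool.Agent.W128.VA

theorem main : S_EOPC → S_GEN := by
  intro hE U hv hh h1 h2
  have hPZ : ∀ σ : ℤ, eop σ 0 1 = 1 := by
    intro σ
    rw [(hE σ 0).2.2]
    unfold PZ
    simp [P_zero]
  -- the vacua
  have hk : ∀ k : ℤ, (Finsupp.single k 1 : V0) ∈ U := by
    intro k
    induction k using Int.induction_on with
    | zero => exact hv
    | succ i ih =>
      have h := h1 (-1 - 2 * (i : ℤ)) _ ih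
      rw [eV_single, show -(-1 - 2 * (i : ℤ)) - 1 - 2 * 1 * (i : ℤ) = 0 by ring, hPZ] at h
      exact h
    | pred i ih =>
      have h := h2 (-1 - 2 * (i : ℤ)) _ ih
      rw [eV_single, show -(-1 - 2 * (i : ℤ)) - 1 - 2 * (-1) * (-(i : ℤ)) = 0 by ring, hPZ] at h
      exact h
  have hp : ∀ (k : ℤ) (p : R0), (Finsupp.single k p : V0) ∈ U := by
    intro k p
    induction p using MvPolynomial.induction_on with
    | C a =>
      have h : (Finsupp.single k (MvPolynomial.C a) : V0) = a • Finsupp.single k 1 := by
        rw [Finsupp.smul_single, MvPolynomial.smul_eq_C_mul, mul_one]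
      rw [h]
      exact U.smul_mem a (hk k)
    | add p q hp hq =>
      rw [Finsupp.single_add]
      exact U.add_mem hp hq
    | mul_X p i hp =>
      have h := hh (-((i : ℤ) + 1)) _ hp
      rw [hop_single] at h
      have h3 : hR (-((i : ℤ) + 1)) k p = p * MvPolynomial.X i := by
        unfold hR
        rw [if_pos (by omega)]
        have h4 : (-(-((i : ℤ) + 1)) - 1).toNat = i := by omega
        rw [h4, LinearMap.mulLeft_apply, mul_comm]
      rw [h3] at h
      exact h
  rw [eq_top_iff]
  intro v _
  induction v using Finsupp.induction_linear with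
  | zero => exact U.zero_mem
  | add v w hv hw => exact U.add_mem (hv trivial) (hw trivial)
  | single k p => exact hp k p

end Pool.Agent.W410.VA.GEN
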